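import Mathlib

namespace Pool.Agent.Results.MP_eaeafc_co.AllGraphs

variable {V : Type*} [DecidableEq V]

/-- Number of adjacent positions of a word carrying the same letter. -/
def adj11 : List V → ℕ
  | [] => 0
  | [_] => 0
  | a :: b :: l => (if a = b then 1 else 0) + adj11 (b :: l)

/-- The subword of `w` formed by the letters `x` and `y`. -/
def restr (x y : V) (w : List V) : List V := w.filter fun z => decide (z = x ∨ z = y)

/-- The word `w` `k`-11-represents the graph `G`. -/
def Represents (k : ℕ) (G : SimpleGraph V) (w : List V) : Prop :=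
  (∀ v, v ∈ w) ∧ ∀ x y, x ≠ y → (G.Adj x y ↔ adj11 (restr x y w) ≤ k)

/-- `p` lists every vertex exactly once. -/
def IsPerm (p : List V) : Prop := p.Nodup ∧ ∀ v, v ∈ p

/-- `w` is a concatenation of permutations of `V`. -/
def IsPermConcat (w : List V) : Prop :=
  ∃ ps : List (List V), (∀ p ∈ ps, IsPerm p) ∧ w = ps.flatten

/-- all letters occur equally often in `w` -/
def IsUniform (w : List V) : Prop := ∃ m, ∀ v, w.count v = m

/-- number of consecutive pairs in a list of words whose restrictions to `x, y` differ -/
def chg (x y : V) : List (List V) → ℕ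
  | [] => 0
  | [_] => 0
  | p :: q :: r => (if restr x y p = restr x y q then 0 else 1) + chg x y (q :: r)

theorem restr_append (x y : V) (u v : List V) : restr x y (u ++ v) = restr x y u ++ restr x y v :=
  List.filter_append ..

theorem chg_append (x y : V) (A : List (List V)) (q : List V) (B : List (List V)) :
    chg x y (A ++ q :: B) = chg x y (A ++ [q]) + chg x y (q :: B) := by
  induction A with
  | nil => simp [chg]
  | cons a A ih =>
    cases A with
    | nil => simp [chg]
    | cons b A =>
      simp only [List.cons_append] at ih ⊢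
      simp only [chg]
      rw [ih, add_assoc]

theorem occ_flatten (x y : V) (hxy : x ≠ y) (ps : List (List V))
    (h : ∀ p ∈ ps, restr x y p = [x, y] ∨ restr x y p = [y, x]) :
    adj11 (restr x y ps.flatten) = chg x y ps := by
  induction ps with
  | nil => simp [adj11, chg, restr]
  | cons p ps ih =>
    cases ps with
    | nil =>
      simp only [List.flatten_cons, List.flatten_nil, List.append_nil, chg]
      rcases h p (by simp) with h1 | h1 <;> rw [h1] <;> simp [adj11, hxy, hxy.symm]
    | cons q ps =>
      have ih' := ih (fun r hr => h r (List.mem_cons_of_mem _ hr))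
      have hp := h p (by simp)
      have hq := h q (by simp)
      rw [List.flatten_cons, restr_append]
      rw [List.flatten_cons, restr_append] at ih'
      rw [List.flatten_cons, restr_append]
      simp only [chg]
      rw [← ih']
      rcases hp with hp | hp <;> rcases hq with hq | hq <;> rw [hp, hq] <;>
        simp [adj11, hxy, hxy.symm]

/-- There is a sequence of permutations from `p` to `q` with prescribed numbers of changes. -/
def Conn (c : V → V → ℕ) (p q : List V) : Prop :=
  ∃ mid : List (List V), (∀ r ∈ mid, r.Perm p) ∧ q.Perm p ∧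
    ∀ x y, x ≠ y → chg x y (p :: (mid ++ [q])) = c x y

theorem conn_trans {c₁ c₂ : V → V → ℕ} {p q r : List V} (h₁ : Conn c₁ p q) (h₂ : Conn c₂ q r) :
    Conn (fun x y => c₁ x y + c₂ x y) p r := by
  obtain ⟨m₁, a₁, b₁, e₁⟩ := h₁
  obtain ⟨m₂, a₂, b₂, e₂⟩ := h₂
  refine ⟨m₁ ++ q :: m₂, ?_, b₂.trans b₁, ?_⟩
  · intro s hs
    rw [List.mem_append, List.mem_cons] at hs
    rcases hs with hs | rfl | hs
    · exact a₁ s hs
    · exact b₁
    · exact (a₂ s hs).trans b₁
  · intro x y hxy
    have h := chg_append x y (p :: m₁) q (m₂ ++ [r])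
    have h1 := e₁ x y hxy
    have h2 := e₂ x y hxy
    simp only [List.cons_append, List.append_assoc] at h h1 h2 ⊢
    rw [h, h1, h2]

theorem conn_congr {c₁ c₂ : V → V → ℕ} {p q : List V} (h : ∀ x y, x ≠ y → c₁ x y = c₂ x y)
    (h₁ : Conn c₁ p q) : Conn c₂ p q := by
  obtain ⟨m, a, b, e⟩ := h₁
  exact ⟨m, a, b, fun x y hxy => (e x y hxy).trans (h x y hxy)⟩

theorem conn_refl (p : List V) : Conn (fun _ _ => 0) p p :=
  ⟨[], by simp, List.Perm.refl _, fun x y _ => by simp [chg]⟩

/-- The number of swaps used for a pair. -/
noncomputable def C (G : SimpleGraph V) (x y : V) : ℕ := by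
  classical exact if G.Adj x y then 1 else 3

theorem C_le_iff (G : SimpleGraph V) (x y : V) : C G x y ≤ 1 ↔ G.Adj x y := by
  unfold C
  split_ifs with h <;> simp [h]

theorem conn_swap (G : SimpleGraph V) (u v : List V) (a b : V)
    (hnd : (u ++ a :: b :: v).Nodup) :
    Conn (fun x y => if (x = a ∧ y = b) ∨ (x = b ∧ y = a) then C G x y else 0)
      (u ++ a :: b :: v) (u ++ b :: a :: v) := by
  classical
  have hperm : (u ++ b :: a :: v).Perm (u ++ a :: b :: v) :=
    List.Perm.append_left u (List.Perm.swap a b v)
  have hab : a ≠ b := by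
    have := (List.nodup_append.mp hnd).2.1
    rw [List.nodup_cons] at this
    intro h
    exact this.1 (by rw [h]; simp)
  -- restrictions
  have hr : ∀ x y, x ≠ y → ((x = a ∧ y = b) ∨ (x = b ∧ y = a)) →
      restr x y (u ++ a :: b :: v) ≠ restr x y (u ++ b :: a :: v) := by
    intro x y hxy h
    rw [restr_append, restr_append]
    intro he
    have h1 := List.append_cancel_left he
    unfold restr at h1
    rcases h with ⟨rfl, rfl⟩ | ⟨rfl, rfl⟩
    · simp at h1
      exact hxy h1.1
    · simp at h1
      exact hxy h1.1.symm
  have hs : ∀ x y, x ≠ y → ¬ ((x = a ∧ y = b) ∨ (x = b ∧ y = a)) →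
      restr x y (u ++ a :: b :: v) = restr x y (u ++ b :: a :: v) := by
    intro x y hxy h
    rw [restr_append, restr_append]
    congr 1
    unfold restr
    by_cases h1 : a = x ∨ a = y
    · by_cases h2 : b = x ∨ b = y
      · exfalso
        rcases h1 with rfl | rfl <;> rcases h2 with rfl | rfl <;> simp_all
      · rw [List.filter_cons_of_pos (by simpa using h1), List.filter_cons_of_neg (by simpa using h2),
          List.filter_cons_of_neg (by simpa using h2), List.filter_cons_of_pos (by simpa using h1)]
    · rw [List.filter_cons_of_neg (by simpa using h1)]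
      by_cases h2 : b = x ∨ b = y
      · rw [List.filter_cons_of_pos (by simpa using h2), List.filter_cons_of_pos (by simpa using h2),
          List.filter_cons_of_neg (by simpa using h1)]
      · rw [List.filter_cons_of_neg (by simpa using h2), List.filter_cons_of_neg (by simpa using h2),
          List.filter_cons_of_neg (by simpa using h1)]
  by_cases hG : G.Adj a b
  · refine ⟨[], by simp, hperm, ?_⟩
    intro x y hxy
    simp only [List.nil_append, chg]
    by_cases h : (x = a ∧ y = b) ∨ (x = b ∧ y = a)
    · rw [if_pos h, if_neg (hr x y hxy h)]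
      unfold C
      rcases h with ⟨rfl, rfl⟩ | ⟨rfl, rfl⟩
      · simp [hG]
      · simp [hG.symm]
    · rw [if_neg h, if_pos (hs x y hxy h)]
  · refine ⟨[u ++ b :: a :: v, u ++ a :: b :: v], ?_, hperm, ?_⟩
    · intro r hr
      simp only [List.mem_cons, List.not_mem_nil, or_false] at hr
      rcases hr with rfl | rfl
      · exact hperm
      · exact List.Perm.refl _
    intro x y hxy
    simp only [List.cons_append, List.nil_append, chg]
    by_cases h : (x = a ∧ y = b) ∨ (x = b ∧ y = a)
    · rw [if_pos h, if_neg (hr x y hxy h), if_neg (Ne.symm (hr x y hxy h))]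
      unfold C
      rcases h with ⟨rfl, rfl⟩ | ⟨rfl, rfl⟩
      · simp [hG]
      · have : ¬ G.Adj x y := fun h => hG h.symm
        simp [this]
    · rw [if_neg h, if_pos (hs x y hxy h), if_pos (hs x y hxy h).symm]

theorem conn_move (G : SimpleGraph V) (a : V) (v : List V) (m : List V) : ∀ u : List V,
    (u ++ a :: (m ++ v)).Nodup →
    Conn (fun x y => if (x = a ∧ y ∈ m) ∨ (x ∈ m ∧ y = a) then C G x y else 0)
      (u ++ a :: (m ++ v)) (u ++ (m ++ a :: v)) := by
  induction m with
  | nil =>
    intro u _
    simp only [List.nil_append]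
    exact conn_congr (fun x y _ => by simp) (conn_refl _)
  | cons b m ih =>
    intro u hnd
    have h1 := conn_swap G u (m ++ v) a b (by simpa using hnd)
    have h2 := ih (u ++ [b]) (by
      have hp : (u ++ [b] ++ a :: (m ++ v)).Perm (u ++ a :: (b :: m ++ v)) := by
        simp only [List.append_assoc, List.cons_append, List.nil_append]
        exact List.Perm.append_left u (List.Perm.swap a b _)
      exact hp.nodup_iff.mpr hnd)
    simp only [List.append_assoc, List.cons_append, List.nil_append] at h1 h2 ⊢
    refine conn_congr ?_ (conn_trans h1 h2)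
    intro x y hxy
    have ha : a ≠ b ∧ a ∉ m ∧ b ∉ m := by
      have := (List.nodup_append.mp hnd).2.1
      rw [List.nodup_cons, List.cons_append, List.nodup_cons] at this
      simp only [List.mem_cons, List.mem_append, not_or] at this
      exact ⟨this.1.1, this.1.2.1, this.2.1.1⟩
    obtain ⟨hab, ham, hbm⟩ := ha
    by_cases h1 : (x = a ∧ y = b) ∨ (x = b ∧ y = a)
    · rw [if_pos h1]
      rcases h1 with ⟨rfl, rfl⟩ | ⟨rfl, rfl⟩
      · simp [hbm, ham]
      · simp [hbm, ham]
    · rw [if_neg h1, zero_add]
      have h3 : ((x = a ∧ y ∈ m) ∨ (x ∈ m ∧ y = a))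
          ↔ ((x = a ∧ y ∈ b :: m) ∨ (x ∈ b :: m ∧ y = a)) := by
        simp only [List.mem_cons]
        tauto
      simp only [h3]

theorem conn_rev (G : SimpleGraph V) (l : List V) : ∀ u v : List V,
    (u ++ (l ++ v)).Nodup →
    Conn (fun x y => if x ∈ l ∧ y ∈ l then C G x y else 0)
      (u ++ (l ++ v)) (u ++ (l.reverse ++ v)) := by
  induction l with
  | nil =>
    intro u v _
    exact conn_congr (fun x y _ => by simp) (conn_refl _)
  | cons a m ih =>
    intro u v hnd
    have h1 := conn_move G a v m u (by simpa using hnd)
    have h2 := ih u (a :: v) (by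
      have hp : (u ++ (m ++ a :: v)).Perm (u ++ (a :: m ++ v)) :=
        List.Perm.append_left u List.perm_middle
      exact hp.nodup_iff.mpr hnd)
    have ham : a ∉ m := by
      have := (List.nodup_append.mp hnd).2.1
      rw [List.cons_append, List.nodup_cons] at this
      simp only [List.mem_append, not_or] at this
      exact this.1.1
    simp only [List.reverse_cons, List.append_assoc, List.cons_append, List.nil_append]
      at h1 h2 ⊢
    refine conn_congr ?_ (conn_trans h1 h2)
    intro x y hxy
    by_cases hx : x = a
    · subst hx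
      by_cases hy : y ∈ m
      · simp [hy, ham]
      · have : y ≠ x := hxy.symm
        simp [hy, ham, this]
    · by_cases hy : y = a
      · subst hy
        by_cases hxm : x ∈ m
        · simp [hxm, ham]
        · simp [hxm, ham, hx]
      · simp [hx, hy]

theorem restr_perm (x y : V) (hxy : x ≠ y) (p : List V) (hp : IsPerm p) :
    restr x y p = [x, y] ∨ restr x y p = [y, x] := by
  have h1 : (restr x y p).Perm [x, y] := by
    unfold restr
    rw [List.perm_ext_iff_of_nodup (hp.1.filter _) (by simp [hxy])]
    intro z
    rw [List.mem_filter]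
    simp [hp.2 z]
  obtain ⟨a, b, hab⟩ := List.length_eq_two.mp h1.length_eq
  rw [hab] at h1 ⊢
  have ha : a = x ∨ a = y := by
    have := h1.mem_iff (a := a)
    simpa using this
  have hb : b = x ∨ b = y := by
    have := h1.mem_iff (a := b)
    simpa using this
  have hne : a ≠ b := by
    have := h1.nodup_iff.mpr (by simp [hxy])
    simpa using this
  rcases ha with rfl | rfl <;> rcases hb with rfl | rfl <;> simp_all

/-- Every finite graph is 1-11-represented by a concatenation of permutations, which is in
particular a uniform word. -/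
theorem result (V : Type*) [Fintype V] [DecidableEq V] (G : SimpleGraph V) :
    ∃ w : List V, IsPermConcat w ∧ IsUniform w ∧ Represents 1 G w := by
  classical
  have hl : IsPerm (Finset.univ : Finset V).toList :=
    ⟨Finset.nodup_toList _, fun v => by simp⟩
  have h := conn_rev G (Finset.univ : Finset V).toList [] [] (by simpa using hl.1)
  simp only [List.nil_append, List.append_nil] at h
  obtain ⟨mid, h1, h2, h3⟩ := h
  set l := (Finset.univ : Finset V).toList with hldef
  have hall : ∀ p ∈ l :: (mid ++ [l.reverse]), IsPerm p := by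
    intro p hp
    have hpl : p.Perm l := by
      rw [List.mem_cons, List.mem_append, List.mem_singleton] at hp
      rcases hp with rfl | hp | rfl
      · exact List.Perm.refl _
      · exact h1 p hp
      · exact h2
    exact ⟨hpl.nodup_iff.mpr hl.1, fun v => hpl.mem_iff.mpr (hl.2 v)⟩
  refine ⟨(l :: (mid ++ [l.reverse])).flatten, ⟨_, hall, rfl⟩, ?_, ?_, ?_⟩
  · refine ⟨(l :: (mid ++ [l.reverse])).length, fun v => ?_⟩
    have key : ∀ ps : List (List V), (∀ p ∈ ps, IsPerm p) → ps.flatten.count v = ps.length := by
      intro ps
      induction ps with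
      | nil => intro _; simp
      | cons p ps ih =>
        intro hps
        rw [List.flatten_cons, List.count_append, ih (fun q hq => hps q (List.mem_cons_of_mem _ hq)),
          List.count_eq_one_of_mem (hps p (by simp)).1 ((hps p (by simp)).2 v)]
        simp [add_comm]
    exact key _ hall
  · intro v
    rw [List.mem_flatten]
    exact ⟨l, by simp, hl.2 v⟩
  · intro x y hxy
    have h4 := h3 x y hxy
    simp only at h4
    rw [if_pos ⟨hl.2 x, hl.2 y⟩] at h4
    rw [occ_flatten x y hxy _ (fun p hp => restr_perm x y hxy p (hall p hp)), h4, C_le_iff]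

end Pool.Agent.Results.MP_eaeafc_co.AllGraphs
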